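import Pool.Agent.Helper70.SUB.SheetW
import Pool.Agent.Helper94.SUBK.SVB

/-!
Project SUBW, rows RELW and U2W: relations and lower bounds for sums of moderate `S`-units with
slow coefficients.
-/

set_option autoImplicit false

namespace Pool.Agent.Helper26.SUBW

open Filter Finset Matrix Pool.Agent.Helper70.SUB Pool.Agent.Helper77.SUBK
  Pool.Agent.Helper70.SUBL Pool.Agent.Helper70.SUBW

section

variable {M : Type} [Field M] [NumberField M] [IsGalois ℚ M] {S : Finset ℕ} (P : PF S M)
  (φ : Ultrafilter ℕ) (X : ℕ → ℝ)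

/-- `RELW` for index types with `n` elements -/
theorem rel_aux (hCST : ST_CSTW) (hSLW : ST_SLW) (hS : ∀ p ∈ S, p.Prime)
    (hX : Tendsto X (φ : Filter ℕ) atTop) :
    ∀ (n : ℕ) (ι : Type) [Fintype ι] [DecidableEq ι] (c u : ι → ℕ → M),
      Fintype.card ι = n → Nonempty ι → (∀ i, Slw P φ X (c i)) →
      (∀ i, ∀ᶠ j in (φ : Filter ℕ), c i j ≠ 0) → (∀ i, MU P φ X (u i)) →
      (∀ᶠ j in (φ : Filter ℕ), ∑ i, c i j * u i j = 0) →
      ∃ i i' : ι, i ≠ i' ∧ Slw P φ X (fun j => u i j / u i' j) := by
  classical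
  obtain ⟨s1, s2, -, -, -, -, -, -, s9, -, -, -, -⟩ := hSLW M S P φ X hS hX
  intro n
  induction n using Nat.strong_induction_on with
  | _ n ih =>
    intro ι _ _ c u hn hne hc hc0 hu hsum
    by_cases hnt : Nontrivial ι
    · obtain ⟨i₁, i₂, h12⟩ := exists_pair_ne ι
      by_cases hsl : Slw P φ X (fun j => u i₁ j / u i₂ j)
      · exact ⟨i₁, i₂, h12, hsl⟩
      -- a place where the first is much larger than the second
      have hSV : ∀ᶠ j in (φ : Filter ℕ), SV S (u i₁ j / u i₂ j) := by
        filter_upwards [(hu i₁).1, (hu i₂).1] with j h1 h2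
        rw [div_eq_mul_inv]
        exact Pool.Agent.Helper94.SUBK.SV_mul h1 (Pool.Agent.Helper94.SUBK.SV_inv h2)
      have hex : ∃ v ∈ plc S, ∃ (σ : M ≃ₐ[ℚ] M) (ε : ℝ), 0 < ε ∧
          ∀ᶠ j in (φ : Filter ℕ), X j ^ ε < P.nv v (σ (u i₁ j / u i₂ j)) := by
        by_contra hcon
        apply hsl
        refine s9 _ hSV fun v hv σ ε hε => ?_
        by_contra h
        rw [← Ultrafilter.eventually_not] at h
        refine hcon ⟨v, hv, σ, ε, hε, ?_⟩
        filter_upwards [h] with j hj
        exact not_le.1 hj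
      obtain ⟨v, hv, σ, ε, hε, hbig⟩ := hex
      obtain ⟨-, -, -, -, t5, -⟩ := hSLW M S P φ X hS hX
      have hc2 := t5 (c i₂) (hc i₂) v hv σ (ε / 2) (by linarith)
      let κ : Type := {i : ι // i ≠ i₂}
      have hsm : ∀ᶠ j in (φ : Filter ℕ),
          P.nv v (σ (∑ i : κ, c i j * u i j)) ≤ P.nv v (σ (u i₁ j)) * X j ^ (-(ε / 2)) := by
        filter_upwards [hsum, hbig, hc2, hX.eventually_ge_atTop 1, (hu i₁).1, (hu i₂).1] with
          j h1 h2 h3 h4 h5 h6
        have e1 : ∑ i : κ, c i j * u i j = - (c i₂ j * u i₂ j) := by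
          have e2 : ∑ i : κ, c i j * u i j = ∑ i ∈ univ.erase i₂, c i j * u i j := by
            symm
            refine Finset.sum_subtype (univ.erase i₂) (fun i => by simp) (fun i => c i j * u i j)
          have e3 := Finset.add_sum_erase univ (fun i => c i j * u i j) (mem_univ i₂)
          rw [h1] at e3
          rw [e2]
          exact eq_neg_of_add_eq_zero_right e3
        rw [e1, map_neg, P.neg hv, map_mul, P.mul v hv]
        rw [map_div₀, P.div hv] at h2
        have p2 : 0 < P.nv v (σ (u i₂ j)) :=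
          P.pos v hv _ ((map_ne_zero σ).2 h6.1)
        rw [lt_div_iff₀ p2] at h2
        have hXp : 0 < X j := by linarith
        have r1 : X j ^ (ε / 2) * X j ^ (ε / 2) = X j ^ ε := by
          rw [← Real.rpow_add hXp]
          congr 1
          ring
        have r2 : X j ^ (-(ε / 2)) * X j ^ (ε / 2) = 1 := by
          rw [← Real.rpow_add hXp]
          simp
        have r3 : 0 < X j ^ (-(ε / 2)) := Real.rpow_pos_of_pos hXp _
        have r4 : 0 < X j ^ (ε / 2) := Real.rpow_pos_of_pos hXp _
        calc P.nv v (σ (c i₂ j)) * P.nv v (σ (u i₂ j))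
            ≤ X j ^ (ε / 2) * P.nv v (σ (u i₂ j)) := mul_le_mul_of_nonneg_right h3 p2.le
          _ = X j ^ (-(ε / 2)) * (X j ^ ε * P.nv v (σ (u i₂ j))) := by
              rw [← r1]
              calc X j ^ (ε / 2) * P.nv v (σ (u i₂ j))
                  = (X j ^ (-(ε / 2)) * X j ^ (ε / 2)) * (X j ^ (ε / 2) *
                      P.nv v (σ (u i₂ j))) := by rw [r2, one_mul]
                _ = _ := by ring
          _ ≤ X j ^ (-(ε / 2)) * P.nv v (σ (u i₁ j)) := mul_le_mul_of_nonneg_left h2.le r3.le
          _ = _ := mul_comm _ _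
      obtain ⟨a, ha, hrel⟩ := hCST M S P φ X κ (fun i => c i) (fun i => u i) (ε / 2) v σ ⟨i₁, h12⟩
        hS hX (fun i => hc i) (fun i => hc0 i) (fun i => hu i) hv (by linarith) hsm
      let κ' : Type := {i : κ // a i ≠ 0}
      have hne' : Nonempty κ' := by
        by_contra h
        apply ha
        funext i
        by_contra hi
        exact h ⟨⟨i, hi⟩⟩
      have hcard : Fintype.card κ' < n := by
        rw [← hn]
        calc Fintype.card κ' ≤ Fintype.card κ := Fintype.card_subtype_le _
          _ < Fintype.card ι := by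
              refine Fintype.card_subtype_lt (x := i₂) ?_
              simp
      obtain ⟨k, k', hkk, hk⟩ := ih _ hcard κ' (fun i j => a i.1 * c i.1 j) (fun i => u i.1) rfl
        hne' (fun i => (s2 _ _ (s1 (a i.1)) (hc i.1)).2)
        (fun i => by
          filter_upwards [hc0 i.1] with j hj
          exact mul_ne_zero i.2 hj) (fun i => hu i.1) (by
          filter_upwards [hrel] with j hj
          refine Eq.trans ?_ hj
          have e2 : ∑ i : κ', a i.1 * c i.1 j * u i.1 j =
              ∑ i ∈ univ.filter (fun i : κ => a i ≠ 0), a i * c i j * u i j := by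
            symm
            exact Finset.sum_subtype (univ.filter (fun i : κ => a i ≠ 0)) (fun i => by simp)
              (fun i : κ => a i * c i j * u i j)
          rw [e2, Finset.sum_filter]
          refine Finset.sum_congr rfl fun i _ => ?_
          split_ifs with h
          · ring
          · rw [not_not.1 h]
            ring)
      exact ⟨k.1.1, k'.1.1, fun h => hkk (Subtype.ext (Subtype.ext h)), hk⟩
    · -- one term
      exfalso
      obtain ⟨i₀⟩ := hne
      have hsub : ∀ i : ι, i = i₀ := by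
        intro i
        by_contra hi
        exact hnt ⟨i, i₀, hi⟩
      obtain ⟨j, h1, h2, h3⟩ := (hsum.and ((hc0 i₀).and (hu i₀).1)).exists
      have e1 : ∑ i, c i j * u i j = c i₀ j * u i₀ j := by
        rw [Finset.sum_eq_single i₀]
        · intro i _ hi
          exact absurd (hsub i) hi
        · intro h
          exact absurd (mem_univ _) h
      rw [e1] at h1
      exact mul_ne_zero h2 h3.1 h1

end

/-- **RELW** -/
theorem RELW (hCST : ST_CSTW) (hSLW : ST_SLW) : ST_RELW := by
  intro M _ _ _ S P φ X ι _ _ c u hS hne hX hc hc0 hu hsum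
  exact rel_aux P φ X hCST hSLW hS hX _ ι c u rfl hne hc hc0 hu hsum

/-- **U2W** -/
theorem U2W (hCST : ST_CSTW) (hREL : ST_RELW) (hSLW : ST_SLW) : ST_U2W := by
  classical
  intro M _ _ _ S P φ X ι _ _ c u v σ i ε hS hX hc hc0 hu hind hv hε
  obtain ⟨s1, s2, -⟩ := hSLW M S P φ X hS hX
  by_contra hcon
  rw [← Ultrafilter.eventually_not] at hcon
  have hsm : ∀ᶠ j in (φ : Filter ℕ),
      P.nv v (σ (∑ i, c i j * u i j)) ≤ P.nv v (σ (u i j)) * X j ^ (-ε) := by
    filter_upwards [hcon] with j hj
    exact (not_le.1 hj).le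
  obtain ⟨a, ha, hrel⟩ := hCST M S P φ X ι c u ε v σ i hS hX hc hc0 hu hv hε hsm
  let κ : Type := {i : ι // a i ≠ 0}
  have hne' : Nonempty κ := by
    by_contra h
    apply ha
    funext i
    by_contra hi
    exact h ⟨⟨i, hi⟩⟩
  obtain ⟨k, k', hkk, hk⟩ := hREL M S P φ X κ (fun i j => a i.1 * c i.1 j) (fun i => u i.1) hS
    hne' hX (fun i => (s2 _ _ (s1 (a i.1)) (hc i.1)).2)
    (fun i => by
      filter_upwards [hc0 i.1] with j hj
      exact mul_ne_zero i.2 hj) (fun i => hu i.1) (by
      filter_upwards [hrel] with j hj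
      refine Eq.trans ?_ hj
      have e2 : ∑ i : κ, a i.1 * c i.1 j * u i.1 j =
          ∑ i ∈ univ.filter (fun i : ι => a i ≠ 0), a i * c i j * u i j := by
        symm
        exact Finset.sum_subtype (univ.filter (fun i : ι => a i ≠ 0)) (fun i => by simp)
          (fun i : ι => a i * c i j * u i j)
      rw [e2, Finset.sum_filter]
      refine Finset.sum_congr rfl fun i _ => ?_
      split_ifs with h
      · ring
      · rw [not_not.1 h]
        ring)
  exact hind k.1 k'.1 (fun h => hkk (Subtype.ext h)) hk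

end Pool.Agent.Helper26.SUBW
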